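import Pool.Agent.R545.Lc.Final

/-!
# For every fixed `c`, linear clique-width at most `c` is recognisable in polynomial time

The definitions used in the statement:
* `linearCliqueWidth G` (in `Pool.Agent.Helper856.Lcw.Defs`): the least `k` such that `G` is
  isomorphic to a graph built with `k` labels by the four operations, where in every disjoint
  union one of the two operands is a single vertex (`LinBuilt`);
* `matGraph M` (in `Pool.Agent.H622R2.MatGraph`): the graph on `Fin M.length` with the (symmetrised,
  diagonal ignored) Boolean adjacency matrix `M`;
* `InPP` (in `Pool.Agent.NPC.Classes`): the language of the codes of the inputs with the given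
  property is decided by a polynomial-time Turing machine (in Mathlib's sense).
-/

namespace Pool.Agent.Results.MP_0f6c86_lc.LinearCliqueWidthInP

open Pool.Agent.NPC Pool.Agent.H622R2 Pool.Agent.Helper856.Lcw

/-- **`LCW_c` is in `P` for every fixed `c`.** -/
theorem result : ∀ c : ℕ,
    InPP (fun M : List (List Bool) => linearCliqueWidth (matGraph M) ≤ c) :=
  Pool.Agent.R545.Lc.lcw_inPP

end Pool.Agent.Results.MP_0f6c86_lc.LinearCliqueWidthInP
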